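import Mathlib
import Pool.Agent.Lib.helper6.Ck

set_option autoImplicit false

namespace Pool.Agent.Results.MP_36ad39_gt.Fans

open Set Topology Filter TopologicalSpace Pool.Agent.Lib.helper6.Ck

/-- k-networks -/
def KNet {X : Type} [TopologicalSpace X] (N : Set (Set X)) : Prop :=
  ∀ K U : Set X, IsCompact K → IsOpen U → K ⊆ U → ∃ F ⊆ N, F.Finite ∧ K ⊆ ⋃₀ F ∧ ⋃₀ F ⊆ U

/-- aleph-spaces -/
def Aleph (X : Type) [TopologicalSpace X] : Prop :=
  T3Space X ∧ ∃ N : ℕ → Set (Set X), (∀ n, LocallyFinite fun s : N n => (s : Set X)) ∧ KNet (⋃ n, N n)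

/-- Ascoli spaces -/
def Ascoli (X : Type) [TopologicalSpace X] : Prop :=
  ∀ K : Set C(X, ℝ), IsCompact K → Continuous fun p : K × X => p.1.1 p.2

/-- the class of spaces embeddable into `C_k(X,Y)` with `X` separable metrizable, `Y` metrizable -/
def CM (U : Type) [TopologicalSpace U] : Prop :=
  ∃ (X Y : Type) (_ : TopologicalSpace X) (_ : TopologicalSpace Y), MetrizableSpace X ∧
    SeparableSpace X ∧ MetrizableSpace Y ∧ ∃ e : U → C(X, Y), IsEmbedding e

lemma asc (X : Type) [TopologicalSpace X] [SequentialSpace X] [T2Space X] : Ascoli X := by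
  intro K hK
  have := isCompact_iff_compactSpace.1 hK
  let Φ : X → C(K, ℝ) := fun x => ⟨fun f => f.1 x, by fun_prop⟩
  have : Continuous Φ := by
    refine (CompactlyCoherentSpace.isCoherentWith (X := X)).continuous_iff.2 fun L hL => ?_
    have := isCompact_iff_compactSpace.1 hL
    rw [continuousOn_iff_continuous_domRestrict]
    exact ContinuousMap.continuous_of_continuous_uncurry _
      (((ContinuousMap.continuous_restrict L).comp (continuous_subtype_val.comp continuous_snd)).eval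
        continuous_fst)
  exact (ContinuousMap.continuous_uncurry_of_continuous ⟨Φ, this⟩).comp continuous_swap

abbrev D := ℕ × Finset ℕ

def cone (n : ℕ) (z : Set ℕ) : Set D := {d | n ≤ d.1 ∧ ∀ k < n, (k ∈ d.2 ↔ k ∈ z)}

structure X where
  fst : Set (Set ℕ)
  snd : Option D

lemma xe {x y : X} (h1 : x.1 = y.1) (h2 : x.2 = y.2) : x = y := by
  cases x; cases y; cases h1; cases h2; rfl

lemma mono {n m : ℕ} (h : n ≤ m) (z : Set ℕ) : cone m z ⊆ cone n z :=
  fun _ hd => ⟨h.trans hd.1, fun k hk => hd.2 k (hk.trans_le h)⟩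

instance : TopologicalSpace X where
  IsOpen U := ∀ Z, X.mk Z none ∈ U → ∀ z ∈ Z, ∃ n, ∀ d ∈ cone n z, X.mk Z (some d) ∈ U
  isOpen_univ := fun _ _ _ _ => ⟨0, fun _ _ => trivial⟩
  isOpen_inter := fun _ _ h1 h2 Z h z hz => by
    obtain ⟨n, hn⟩ := h1 Z h.1 z hz
    obtain ⟨m, hm⟩ := h2 Z h.2 z hz
    exact ⟨max n m, fun d hd => ⟨hn d (mono (le_max_left _ _) z hd), hm d (mono (le_max_right _ _) z hd)⟩⟩
  isOpen_sUnion := fun _ h Z ⟨t, h1, h2⟩ z hz => (h t h1 Z h2 z hz).imp fun _ h d hd => ⟨t, h1, h d hd⟩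

lemma op {U : Set X} : IsOpen U ↔
    ∀ Z, X.mk Z none ∈ U → ∀ z ∈ Z, ∃ n, ∀ d ∈ cone n z, X.mk Z (some d) ∈ U := Iff.rfl

lemma o1 (P : Set (Set ℕ) → Prop) : IsOpen {x : X | P x.1} := fun _ h _ _ => ⟨0, fun _ _ => h⟩

lemma o2 {U : Set X} (h : ∀ x ∈ U, x.2 ≠ none) : IsOpen U := fun _ hZ => absurd rfl (h _ hZ)

lemma clop {x : X} {U : Set X} (hU : IsOpen U) (hx : x ∈ U) : ∃ V, IsClopen V ∧ x ∈ V ∧ V ⊆ U := by
  obtain ⟨Z, _ | d⟩ := x
  · refine ⟨U ∩ {x | x.1 = Z}, ⟨⟨fun W h _ _ => ⟨0, fun _ _ h' => h ⟨?_, h'.2⟩⟩⟩, hU.inter (o1 (· = Z))⟩,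
      ⟨hx, rfl⟩, inter_subset_left⟩
    rwa [show W = Z from h'.2]
  · refine ⟨{X.mk Z (some d)}, ⟨⟨fun W _ _ _ => ⟨d.1 + 1, fun e he h => ?_⟩⟩, o2 (by simp)⟩, rfl,
      singleton_subset_iff.2 hx⟩
    obtain rfl : e = d := Option.some.inj (congrArg X.snd h)
    exact absurd he.1 (by omega)

lemma ten {Z : Set (Set ℕ)} {z : Set ℕ} (hz : z ∈ Z) {d : ℕ → D} (h : ∀ n, d n ∈ cone n z) :
    Tendsto (fun n => X.mk Z (some (d n))) atTop (𝓝 (X.mk Z none)) := by
  refine tendsto_nhds.2 fun U hU hZ => ?_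
  obtain ⟨n, hn⟩ := hU Z hZ z hz
  exact mem_atTop_sets.2 ⟨n, fun m hm => hn _ (mono hm z (h m))⟩

instance : SequentialSpace X := ⟨fun s hs => ⟨fun Z hZ z hz => by
  by_contra H
  push Not at H
  choose d h1 h2 using H
  exact hZ (hs (fun n => not_not.1 (h2 n)) (ten hz h1))⟩⟩

instance : T3Space X := by
  have : T1Space X := t1Space_iff_exists_open.2 fun x y h => by
    obtain ⟨Z, _ | d⟩ := y
    · refine ⟨{x | x.1 ≠ Z} ∪ {x | x.2 ≠ none}, (o1 (· ≠ Z)).union (o2 fun _ h => h), ?_, by simp⟩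
      by_contra H
      simp only [mem_union, mem_ofPred_eq, not_or, not_not] at H
      exact h (xe H.1 H.2)
    · obtain ⟨V, h1, h2, h3⟩ := clop (x := X.mk Z (some d)) (U := {X.mk Z (some d)}) (o2 (by simp)) rfl
      exact ⟨Vᶜ, h1.compl.2, fun h' => h (h3 h'), not_not.2 h2⟩
  have : RegularSpace X := RegularSpace.of_exists_mem_nhds_isClosed_subset fun x s hs => by
    obtain ⟨V, h1, h2, h3⟩ := clop isOpen_interior (mem_interior_iff_mem_nhds.2 hs)
    exact ⟨V, h1.2.mem_nhds h2, h1.1, h3.trans interior_subset⟩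
  exact {}

def B : Option D ⊕ D → Set (Option D)
  | .inl o => {o}
  | .inr d => some '' cone d.1 d.2

lemma aleph : Aleph X := by
  classical
  obtain ⟨u, hu⟩ := exists_surjective_nat (Option D ⊕ D)
  let A : Set (Set ℕ) → ℕ → Set X := fun Z n => {x | x.1 = Z ∧ x.2 ∈ B (u n)}
  refine ⟨inferInstance, fun n => range (A · n), fun n x => ⟨_, (o1 (· = x.1)).mem_nhds rfl, ?_⟩,
    fun K U hK hU h => ?_⟩
  · refine Subsingleton.finite ?_
    rintro ⟨_, Z, rfl⟩ ⟨y, h1, h2⟩ ⟨_, W, rfl⟩ ⟨y', h3, h4⟩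
    obtain rfl : Z = W := (h1.1.symm.trans h2).trans (h3.1.symm.trans h4).symm
    rfl
  have hf : (X.fst '' K : Set (Set (Set ℕ))).Finite := by
    obtain ⟨t, ht⟩ := hK.elim_finite_subcover (fun Z => {x : X | x.1 = Z}) (fun Z => o1 (· = Z))
      fun x _ => mem_iUnion.2 ⟨x.1, rfl⟩
    refine t.finite_toSet.subset ?_
    rintro _ ⟨x, hx, rfl⟩
    obtain ⟨Z, h1, h2⟩ := mem_iUnion₂.1 (ht hx)
    rwa [show x.1 = Z from h2]
  by_contra H
  have : ∀ n, ∃ x ∈ K, ∀ m ≤ n, A x.1 m ⊆ U → x.2 ∉ B (u m) := by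
    intro n
    by_contra H2
    push Not at H2
    refine H ⟨{s ∈ image2 A (X.fst '' K) (Iic n) | s ⊆ U}, ?_, (hf.image2 _ (finite_Iic n)).sep _,
      fun x hx => ?_, sUnion_subset fun _ h => h.2⟩
    · rintro _ ⟨⟨Z, -, m, -, rfl⟩, -⟩
      exact mem_iUnion.2 ⟨m, Z, rfl⟩
    · obtain ⟨m, h1, h2, h3⟩ := H2 x hx
      exact ⟨_, ⟨mem_image2_of_mem ⟨x, hx, rfl⟩ h1, h2⟩, rfl, h3⟩
  choose t t1 t2 using this
  obtain ⟨x, hx, hc⟩ := hK.exists_mapClusterPt (f := atTop) (u := t)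
    (le_principal_iff.2 (mem_map.2 (univ_mem' t1)))
  have k1 : ∀ y ∈ U, ∀ᶠ n in atTop, t n ≠ y := fun y hy => by
    obtain ⟨m, hm⟩ := hu (.inl y.2)
    refine eventually_atTop.2 ⟨m, fun n hn e => t2 n m hn (fun w hw => ?_) (by rw [hm, e]; rfl)⟩
    rw [e] at hw
    simp only [A, hm] at hw
    rwa [show w = y from xe hw.1 hw.2]
  have ho : IsOpen (U ∩ ({x} ∪ (range t)ᶜ)) := by
    intro Z hZ z hz
    obtain ⟨n, hn⟩ := hU Z hZ.1 z hz
    obtain ⟨m, hm⟩ := hu (.inr (n, (Finset.range n).filter (· ∈ z)))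
    have e : B (u m) = some '' cone n z := by
      rw [hm]
      simp only [B, cone]
      refine congrArg _ (Set.ext fun d => and_congr_right fun _ => forall₂_congr fun k hk => ?_)
      simp [hk]
    refine ⟨max n ((Finset.range m).sup (fun j => ((t j).2.getD (0, ∅)).1) + 1), fun d hd =>
      ⟨hn d (mono (le_max_left _ _) z hd), Or.inr ?_⟩⟩
    rintro ⟨j, hj⟩
    rcases lt_or_ge j m with h | h
    · have := Finset.le_sup (f := fun j => ((t j).2.getD (0, ∅)).1) (Finset.mem_range.2 h)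
      have h2 := hd.1
      simp only [hj, Option.getD_some] at this
      omega
    · refine t2 j m h (fun w hw => ?_) (by rw [e, hj]; exact ⟨d, mono (le_max_left _ _) z hd, rfl⟩)
      simp only [A, e, hj] at hw
      obtain ⟨h1, c, h2, h3⟩ := hw
      rw [show w = X.mk Z (some c) from xe h1 h3.symm]
      exact hn c h2
  obtain ⟨n, h1, h2⟩ := ((mapClusterPt_iff_frequently.1 hc _
    (ho.mem_nhds ⟨h hx, Or.inl rfl⟩)).and_eventually (k1 x (h hx))).exists
  exact h1.2.elim h2 fun h => h ⟨n, rfl⟩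

theorem result : ∃ (X : Type) (_ : TopologicalSpace X),
    Ascoli X ∧ Aleph X ∧ ParacompactSpace X ∧ ¬ CM X := by
  classical
  refine ⟨X, inferInstance, asc X, aleph, ⟨fun ι s ho hc => ?_⟩, ?_⟩
  · choose i hi using iUnion_eq_univ_iff.1 hc
    let t : X → Set X := fun x => {y | y.1 = x.1 ∧ if y ∈ s (i (X.mk y.1 none)) then x.2 = none else y = x}
    have h1 : ∀ y, ∃! x, y ∈ t x := fun y => by
      by_cases h : y ∈ s (i (X.mk y.1 none))
      · exact ⟨(X.mk y.1 none), by simp [t, h], fun x hx => xe hx.1.symm (by simpa [h] using hx.2)⟩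
      · exact ⟨y, by simp [t, h], fun x hx => Eq.symm (by simpa [h] using hx.2)⟩
    have h2 : ∀ x, IsOpen (t x) := fun x Z hZ z hz => by
      have := hZ.2
      rw [if_pos (hi _)] at this
      exact (ho _ Z (hi (X.mk Z none)) z hz).imp fun n hn d hd => ⟨hZ.1, (if_pos (hn d hd)).mpr this⟩
    refine ⟨X, t, h2, iUnion_eq_univ_iff.2 fun y => (h1 y).exists, fun y => ?_, fun x => ⟨i x, ?_⟩⟩
    · obtain ⟨x, hx⟩ := (h1 y).exists
      refine ⟨_, (h2 x).mem_nhds hx, (finite_singleton x).subset fun w ⟨v, v1, v2⟩ => (h1 v).unique v1 v2⟩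
    · rintro y ⟨y1, y2⟩
      split_ifs at y2 with h
      · rwa [show x = (X.mk y.1 none) from xe y1.symm y2]
      · exact y2 ▸ hi y
  rintro ⟨P, Y, _, _, _, _, _, e, he⟩
  refine no_univ (S := Set ℕ) (by simp) (fun Z => comap (fun o : Option D => X.mk Z o)
    (𝓝 (X.mk Z none))) ?_ none P fun Z => ⟨Y, _, inferInstance, fun o => e (X.mk Z o), ?_⟩
  · have key : ∀ (Z : Set (Set ℕ)) (z : Set ℕ), z ∈ Z ↔ Tendsto (fun n => some (n, (Finset.range n).filter (· ∈ z))) atTop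
        (comap (fun o : Option D => X.mk Z o) (𝓝 (X.mk Z none))) := by
      intro Z z
      rw [tendsto_comap_iff]
      refine ⟨fun h => ten h fun n => ⟨le_rfl, fun k hk => by simp [hk]⟩, fun h => by_contra fun hz => ?_⟩
      have h2 := Eventually.exists (tendsto_nhds.1 h
        {x | x.1 = Z ∧ ∀ n, x.2 ≠ some (n, (Finset.range n).filter (· ∈ z))}
        (fun W hW w hw => ?_) (by simp))
      · obtain ⟨n, hn⟩ := h2
        exact hn.2 n rfl
      obtain rfl : W = Z := hW.1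
      obtain ⟨k, hk⟩ : ∃ k, ¬ (k ∈ w ↔ k ∈ z) := not_forall.1 fun h => hz (Set.ext h ▸ hw)
      refine ⟨k + 1, fun d hd => ⟨rfl, fun n hn => hk ?_⟩⟩
      obtain rfl : d = _ := Option.some.inj hn
      have := hd.1
      rw [← hd.2 k (Nat.lt_succ_self k)]
      simp only [Finset.mem_filter, Finset.mem_range, and_iff_right_iff_imp]
      exact fun _ => this
    intro Z W h
    exact Set.ext fun z => by rw [key, key, show comap _ (𝓝 (X.mk Z none)) = _ from h]
  · rw [he.isInducing.nhds_eq_comap, comap_comap]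
    rfl

end Pool.Agent.Results.MP_36ad39_gt.Fans
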